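import Pool.Agent.Q287.CV.Fin
import Pool.Agent.Q287.CV.Cov
import Pool.Agent.Q287.CV.Ch1
import Pool.Agent.Q287.CV.Far
import Pool.Agent.Q287.CV.Alg
import Pool.Agent.Q287.CV.Net
import Pool.Agent.Q293.CV.ONE
import Pool.Agent.Q293.CV.HITP
import Pool.Agent.Q293.CV.HITT
import Pool.Agent.Q293.CV.LATE
import Pool.Agent.Q293.CV.FEW
import Pool.Agent.Q293.CV.EXC1
import Pool.Agent.Q293.CV.F2
import Pool.Agent.Q293.CV.LASTU
import Pool.Agent.Q130.CV.STOP
import Pool.Agent.Q130.CV.RES
import Pool.Agent.Q222.CV.Geo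
import Pool.Agent.Q222.CV.LastL
import Pool.Agent.Q222.CV.FarR
import Pool.Agent.Q222.CV.Parm
import Pool.Agent.Q239.CV.EXC2
import Pool.Agent.Q239.CV.EDGE
import Pool.Agent.Q239.CV.CHS

/-!
# Cover cost of graphs with cubic cover time

The definitions are in `Pool/Agent/Q287/CV/Base.lean`: `ex G t F S x` is the expectation of `F` of the
set of visited vertices after `t` more steps of simple random walk on `G` which is at `x` and has
visited the set `S` already; `CT G r` is the cover time from `r` (the sum over `t ≥ 0` of the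
probability that some vertex is not visited after `t` steps); `cc G r` is the cover cost from `r`
(the sum over `t ≥ 0` of the expected cost `1 - k / n` of step number `t + 1`, where `k` is the
number of vertices other than `r` visited after `t` steps).
-/

set_option autoImplicit false

namespace Pool.Agent.Results.MP_c99e7e_pr.CubicCoverCost

open Q287.CV

/-- **Positive answer to Q1.** For every `M > 0` there is `c > 0` such that for every finite
connected graph with `n + 1` vertices and every vertex `r`: if the cover time from `r` is larger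
than `M n ^ 3`, then the cover cost from `r` is larger than `c n ^ 3`. -/
theorem result : ∀ M : ℝ, 0 < M → ∃ c : ℝ, 0 < c ∧
    ∀ (V : Type) [Fintype V] [DecidableEq V] (G : SimpleGraph V) [DecidableRel G.Adj],
      G.Connected → ∀ r : V,
        ENNReal.ofReal (M * ((Fintype.card V : ℝ) - 1) ^ 3) < CT G r →
        ENNReal.ofReal (c * ((Fintype.card V : ℝ) - 1) ^ 3) < cc G r := by
  have hOne := Pool.Agent.Q293.CV.t_ONE
  have hStop := Pool.Agent.Q130.CV.t_STOP hOne
  have hCtl := Pool.Agent.Q130.CV.t_CTL hOne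
  have hRes := Pool.Agent.Q130.CV.t_RES
  have hGr := Pool.Agent.Q130.CV.t_GR hRes
  have hHitp := Pool.Agent.Q293.CV.t_HITP hOne hRes hGr
  have hHitt := Pool.Agent.Q293.CV.t_HITT hOne hRes hGr
  have hLate := Pool.Agent.Q293.CV.t_LATE hOne hRes hGr
  have hFew := Pool.Agent.Q293.CV.t_FEW hOne hRes hGr
  have hExc1 := Pool.Agent.Q293.CV.t_EXC1 hOne hRes hGr
  have hExc2 := Pool.Agent.Q239.CV.t_EXC2 hExc1 hGr
  have hNet := t_NET hGr
  have hBall := t_BALL hGr
  have hEdge := Pool.Agent.Q239.CV.t_EDGE hExc2 hGr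
  have hCh1 := t_CH1 hRes hGr hExc2 hNet t_CHAIN hEdge Pool.Agent.Q239.CV.t_CHS
  have hGen := t_GEN hRes hGr hLate hCh1
  have hNearK := t_NEARK hRes hGr
  have hPair := t_PAIR hRes hGr
  have hGeo := Q222.CV.t_GEO hRes hGr hPair
  have hF2 := Pool.Agent.Q293.CV.t_F2 hOne hRes hGr hFew
  have hLastU := Pool.Agent.Q293.CV.t_LASTU hStop
  have hLastL := Q222.CV.t_LASTL hStop
  have hFar := t_FAR hRes hGr hHitp hFew hF2 hLastU hLastL Q222.CV.t_FARR
  have hCov := t_COV hRes hGr hLate hCh1 hNearK hGeo hFar Q222.CV.t_PARM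
  have hPt1 := t_PT1 hRes hGr hBall
  have hCtb := t_CTB hStop
  exact t_FIN hRes hGr hCtl hHitt hGen hCov hPt1 hCtb

end Pool.Agent.Results.MP_c99e7e_pr.CubicCoverCost
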